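import Pool.Agent.Helper425.PA.Order

set_option autoImplicit false

/-!
# MP_62ad46_lc: definability of the degree of the standard cut

Definitions used in the statement (all from `Pool.Agent.Helper425.PA`):
* `PeanoModel M` : `M` is a model of Peano arithmetic;
* `CountablySaturated M` : countably many definable sets (with parameters) any finitely many of
  which have a common element have a common element;
* `El k` : the set coded by `k` (the sets `El k` are the `M`-finite sets);
* `TRed A B` : Turing reducibility between arbitrary subsets of `M`;
* `Degree M`, `deg A` : the Turing degrees of the subsets of `M`, and the degree of `A`;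
* `omega M` : the standard part;
* `JoinPrime d` : whenever every common upper bound of `x` and `y` is above `d`, one of `x`, `y`
  is above `d`.
-/

universe u

namespace Pool.Agent.Results.MP_62ad46_lc.GreatestJoinPrime

open Cardinal Pool.Agent.Helper425.PA

/-- Let `M` be a countably saturated model of Peano arithmetic in which all infinite `M`-finite
sets have the cardinality of `M` (this is the case when `M` has the cardinality of the continuum,
and when `M` is saturated). Then the degree of the standard cut is the greatest join-prime degree;
in particular it is first order definable, without parameters, in the partial order of the Turing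
degrees of all subsets of `M`. -/
theorem result (M : Type u) [CommSemiring M] [LinearOrder M] [PeanoModel M]
    (hsat : CountablySaturated M) (hD : ∀ k : M, (El k).Infinite → #M ≤ #(El k)) :
    IsGreatest {d : Degree M | JoinPrime d} (deg (omega M)) ∧
    (letI : FirstOrder.Language.order.Structure (Degree M) :=
      FirstOrder.Language.orderStructure (Degree M)
    (∅ : Set (Degree M)).Definable₁ FirstOrder.Language.order {deg (omega M)}) := by
  refine ⟨⟨joinPrime_omega hsat, ?_⟩, definable_omega hsat hD⟩
  intro d hd
  obtain ⟨A, rfl⟩ := exists_rep d
  by_contra hA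
  have hκ : ∀ m : M, m ∉ omega M → #M ≤ #(Set.Iio m) := by
    intro m hm
    obtain ⟨k, h1, h2⟩ := iio_infinite hm
    rw [← h1]
    exact hD k h2
  have hM : ℵ₀ < #M := by
    obtain ⟨m, hm⟩ := exists_nonstd hsat
    obtain ⟨k, h1, h2⟩ := iio_infinite hm
    have := continuum_le_of_infinite hsat k h2
    exact Cardinal.aleph0_lt_continuum.trans_le (this.trans (Cardinal.mk_set_le _))
  obtain ⟨X, Y, hX, hY, hXY⟩ := split hsat hM hD hκ A (fun h => hA (tred_iff.2 h))
  rcases hd (deg X) (deg Y) (fun z h1 h2 => by
    obtain ⟨Z, rfl⟩ := exists_rep z
    exact tred_iff.2 (hXY Z (tred_iff.1 h1) (tred_iff.1 h2))) with h | h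
  · exact hX (tred_iff.1 h)
  · exact hY (tred_iff.1 h)

/-- The hypothesis on the `M`-finite sets holds for all countably saturated models of the
cardinality of the continuum. -/
theorem of_continuum (M : Type u) [CommSemiring M] [LinearOrder M] [PeanoModel M]
    (hsat : CountablySaturated M) (hc : #M ≤ Cardinal.continuum.{u}) :
    ∀ k : M, (El k).Infinite → #M ≤ #(El k) :=
  fun k hk => hc.trans (continuum_le_of_infinite hsat k hk)

/-- `M` is saturated: fewer than `|M|` definable sets (with parameters) such that any finitely
many of them have a common element have a common element. -/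
def FullySaturated (M : Type u) [CommSemiring M] [LinearOrder M] : Prop :=
  ∀ (ι : Type u) (P : ι → M → Prop), #ι < #M →
    (∀ i, Arith (fun v : ℕ → M => P i (v 0))) →
    (∀ s : Finset ι, ∃ x, ∀ i ∈ s, P i x) → ∃ x, ∀ i, P i x

/-- The hypothesis on the `M`-finite sets holds for all saturated models. -/
theorem of_saturated (M : Type u) [CommSemiring M] [LinearOrder M] [PeanoModel M]
    (hsat : FullySaturated M) : ∀ k : M, (El k).Infinite → #M ≤ #(El k) := by
  intro k hk
  by_contra hlt
  rw [not_le] at hlt
  obtain ⟨x, hx⟩ := hsat (El k) (fun a x => Mem x k ∧ x ≠ a.1) hlt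
    (fun a => (Arith.mem (Tm.var 0) (Tm.const k)).and
      (Arith.eq (Tm.var 0) (Tm.const a.1)).not) (fun s => by
        obtain ⟨x, hx, hxs⟩ := hk.exists_notMem_finset (s.map ⟨Subtype.val, Subtype.val_injective⟩)
        refine ⟨x, fun i hi => ⟨hx, ?_⟩⟩
        rintro rfl
        exact hxs (Finset.mem_map_of_mem _ hi))
  obtain ⟨a, ha⟩ := hk.nonempty
  exact (hx ⟨x, (hx ⟨a, ha⟩).1⟩).2 rfl

end Pool.Agent.Results.MP_62ad46_lc.GreatestJoinPrime
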